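import Mathlib

/-!
# Computations in a quotient algebra
-/

set_option autoImplicit false

open Polynomial

namespace Pool.Agent.H259.RH

section
variable {Q : Type} [Ring Q] [Algebra ℂ Q]

lemma eig_left {s x : Q} {μ : ℂ} (h : s * x = μ • x) (p : ℂ[X]) :
    aeval s p * x = (p.eval μ) • x := by
  induction p using Polynomial.induction_on' with
  | add p q hp hq => rw [map_add, add_mul, hp, hq, eval_add, add_smul]
  | monomial n a =>
    rw [aeval_monomial, eval_monomial, mul_assoc, Algebra.algebraMap_eq_smul_one, smul_mul_assoc,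
      one_mul, mul_smul]
    congr 1
    induction n with
    | zero => simp
    | succ n ih => rw [pow_succ, mul_assoc, h, mul_smul_comm, ih, smul_smul, pow_succ, mul_comm]

lemma eig_right {s x : Q} {μ : ℂ} (h : x * s = μ • x) (p : ℂ[X]) :
    x * aeval s p = (p.eval μ) • x := by
  induction p using Polynomial.induction_on' with
  | add p q hp hq => rw [map_add, mul_add, hp, hq, eval_add, add_smul]
  | monomial n a =>
    rw [aeval_monomial, eval_monomial, Algebra.algebraMap_eq_smul_one, smul_mul_assoc,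
      one_mul, mul_smul_comm, mul_smul]
    congr 1
    induction n with
    | zero => simp
    | succ n ih => rw [pow_succ', ← mul_assoc, h, smul_mul_assoc, ih, smul_smul, pow_succ']

/-- the relations -/
structure Rel (s k : Q) (u : Circle → Q) : Prop where
  umul : ∀ z w, u z * u w = u (z * w)
  uone : u 1 = 1
  us : ∀ z, u z * s = (z : ℂ) • (s * u z)
  sk : s * k = k
  ks : k * s = k

variable {s k : Q} {u : Circle → Q}

lemma Rel.su (h : Rel s k u) (z : Circle) : s * u z = ((z⁻¹ : Circle) : ℂ) • (u z * s) := by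
  rw [h.us, smul_smul, ← Circle.coe_mul, inv_mul_cancel, Circle.coe_one, one_smul]

lemma Rel.skn (h : Rel s k u) {n : ℕ} (hn : n ≠ 0) : s * k ^ n = k ^ n := by
  obtain ⟨m, rfl⟩ := Nat.exists_eq_succ_of_ne_zero hn
  rw [pow_succ', ← mul_assoc, h.sk]

lemma Rel.kns (h : Rel s k u) {n : ℕ} (hn : n ≠ 0) : k ^ n * s = k ^ n := by
  obtain ⟨m, rfl⟩ := Nat.exists_eq_succ_of_ne_zero hn
  rw [pow_succ, mul_assoc, h.ks]

lemma Rel.left (h : Rel s k u) (z : Circle) {n : ℕ} (hn : n ≠ 0) (p : ℂ[X]) :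
    aeval s p * (u z * k ^ n) = (p.eval ((z⁻¹ : Circle) : ℂ)) • (u z * k ^ n) := by
  refine eig_left ?_ p
  rw [← mul_assoc, h.su, smul_mul_assoc, mul_assoc, h.skn hn]

lemma Rel.right (h : Rel s k u) (z : Circle) {n : ℕ} (hn : n ≠ 0) (p : ℂ[X]) :
    (k ^ n * u z⁻¹) * aeval s p = (p.eval ((z⁻¹ : Circle) : ℂ)) • (k ^ n * u z⁻¹) := by
  refine eig_right ?_ p
  rw [mul_assoc, h.us, mul_smul_comm, ← mul_assoc, h.kns hn]

lemma Rel.cross (h : Rel s k u) {z : Circle} (hz : z ≠ 1) {n : ℕ} (hn : n ≠ 0) :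
    k ^ n * u z * k = 0 := by
  have h1 : k ^ n * u z * k = (z : ℂ) • (k ^ n * u z * k) := by
    calc k ^ n * u z * k = k ^ n * (u z * (s * k)) := by rw [h.sk, mul_assoc]
      _ = k ^ n * ((u z * s) * k) := by rw [mul_assoc (u z)]
      _ = (z : ℂ) • (k ^ n * s * u z * k) := by
          rw [h.us, smul_mul_assoc, mul_smul_comm, ← mul_assoc, ← mul_assoc]
      _ = _ := by rw [h.kns hn]
  have h2 : (1 - (z : ℂ)) • (k ^ n * u z * k) = 0 := by
    rw [sub_smul, one_smul, ← h1, sub_self]
  rcases smul_eq_zero.1 h2 with h3 | h3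
  · exfalso
    apply hz
    apply Circle.ext
    rw [Circle.coe_one]
    exact (sub_eq_zero.1 h3).symm
  · exact h3

section
variable {ι : Type} [Fintype ι] [DecidableEq ι] (z : ι → Circle) (C : Matrix ι ι ℂ)

/-- the principal part -/
noncomputable def tt (k : Q) (u : Circle → Q) (z : ι → Circle) (C : Matrix ι ι ℂ) (n : ℕ) : Q :=
  ∑ i, ∑ j, C i j • (u (z i) * k ^ n * u (z j)⁻¹)

lemma Rel.mul (h : Rel s k u) (hz : Function.Injective z) (C D : Matrix ι ι ℂ) {n : ℕ}
    (hn : n ≠ 0) : tt k u z C n * tt k u z D 1 = tt k u z (C * D) (n + 1) := by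
  have key : ∀ i j l m, (u (z i) * k ^ n * u (z j)⁻¹) * (u (z l) * k ^ 1 * u (z m)⁻¹) =
      if j = l then u (z i) * k ^ (n + 1) * u (z m)⁻¹ else 0 := by
    intro i j l m
    have e : (u (z i) * k ^ n * u (z j)⁻¹) * (u (z l) * k ^ 1 * u (z m)⁻¹) =
        u (z i) * (k ^ n * (u (z j)⁻¹ * u (z l)) * k) * u (z m)⁻¹ := by
      rw [pow_one]
      simp only [mul_assoc]
    rw [e, h.umul]
    split_ifs with hjl
    · subst hjl
      rw [inv_mul_cancel, h.uone, mul_one, ← pow_succ]
    · rw [h.cross _ hn, mul_zero, zero_mul]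
      intro h1
      apply hjl
      apply hz
      exact (inv_mul_eq_one.1 h1)
  unfold tt
  simp_rw [Finset.sum_mul, Finset.mul_sum, smul_mul_smul_comm, key, smul_ite, smul_zero]
  refine Finset.sum_congr rfl fun i _ => ?_
  have e1 : ∀ j : ι, ∑ l, ∑ m, (if j = l then (C i j * D l m) • (u (z i) * k ^ (n + 1) * u (z m)⁻¹) else 0)
      = ∑ m, (C i j * D j m) • (u (z i) * k ^ (n + 1) * u (z m)⁻¹) := by
    intro j
    rw [Finset.sum_eq_single j]
    · simp
    · intro l _ hl
      simp [Ne.symm hl]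
    · simp
  simp_rw [e1]
  rw [Finset.sum_comm]
  refine Finset.sum_congr rfl fun m _ => ?_
  rw [Matrix.mul_apply, Finset.sum_smul]

lemma Rel.pow (h : Rel s k u) (hz : Function.Injective z) {n : ℕ} (hn : n ≠ 0) :
    tt k u z C 1 ^ n = tt k u z (C ^ n) n := by
  induction n with
  | zero => exact absurd rfl hn
  | succ n ih =>
    rcases Nat.eq_zero_or_pos n with h0 | h0
    · subst h0
      simp
    · rw [pow_succ, ih h0.ne', h.mul z hz _ _ h0.ne', ← pow_succ]

/-- the interpolation polynomials -/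
noncomputable def eta (z : ι → Circle) (i : ι) : ℂ[X] :=
  Lagrange.basis Finset.univ (fun j => (((z j)⁻¹ : Circle) : ℂ)) i

omit [Fintype ι] [DecidableEq ι] in
lemma inj_inv {z : ι → Circle} (hz : Function.Injective z) :
    Function.Injective fun j => (((z j)⁻¹ : Circle) : ℂ) := by
  intro i j hij
  exact hz (inv_injective (Circle.ext hij))

lemma eta_self {z : ι → Circle} (hz : Function.Injective z) (i : ι) :
    (eta z i).eval (((z i)⁻¹ : Circle) : ℂ) = 1 :=
  Lagrange.eval_basis_self (inj_inv hz).injOn (Finset.mem_univ i)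

lemma eta_ne {z : ι → Circle} {i j : ι} (hij : i ≠ j) :
    (eta z i).eval (((z j)⁻¹ : Circle) : ℂ) = 0 :=
  Lagrange.eval_basis_of_ne (v := fun j => (((z j)⁻¹ : Circle) : ℂ)) hij (Finset.mem_univ j)

lemma eta_sum [Nonempty ι] {z : ι → Circle} (hz : Function.Injective z) : ∑ i, eta z i = 1 :=
  Lagrange.sum_basis (inj_inv hz).injOn Finset.univ_nonempty

lemma eta_eval {z : ι → Circle} (hz : Function.Injective z) (i j : ι) :
    (eta z i).eval (((z j)⁻¹ : Circle) : ℂ) = if i = j then 1 else 0 := by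
  split_ifs with h
  · subst h
    exact eta_self hz i
  · exact eta_ne h

/-- the main identity in the quotient -/
lemma Rel.main (h : Rel s k u) (hz : Function.Injective z) {n : ℕ} (hn : n ≠ 0)
    (R : Matrix ι ι ℂ) (D : ι → ℂ) (hD : R * C ^ n = Matrix.diagonal D * R) (μ : ι) :
    (D μ • k ^ n) * (∑ i, R μ i • (u (z i)⁻¹ * aeval s (eta z i))) =
      (∑ i, R μ i • (u (z i)⁻¹ * aeval s (eta z i))) * tt k u z C 1 ^ n := by
  rw [h.pow z C hz hn]
  have l1 : ∀ i, (D μ • k ^ n) * (R μ i • (u (z i)⁻¹ * aeval s (eta z i))) =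
      (D μ * R μ i) • (k ^ n * u (z i)⁻¹) := by
    intro i
    rw [smul_mul_smul_comm, ← mul_assoc, h.right _ hn, eta_self hz, one_smul]
  have l2 : ∀ i, (R μ i • (u (z i)⁻¹ * aeval s (eta z i))) * tt k u z (C ^ n) n =
      ∑ m, (R μ i * (C ^ n) i m) • (k ^ n * u (z m)⁻¹) := by
    intro i
    unfold tt
    rw [Finset.mul_sum, Finset.sum_eq_single i]
    · rw [Finset.mul_sum]
      refine Finset.sum_congr rfl fun m _ => ?_
      rw [smul_mul_smul_comm]
      congr 1
      calc u (z i)⁻¹ * aeval s (eta z i) * (u (z i) * k ^ n * u (z m)⁻¹)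
          = u (z i)⁻¹ * (aeval s (eta z i) * (u (z i) * k ^ n)) * u (z m)⁻¹ := by
            simp only [mul_assoc]
        _ = (u (z i)⁻¹ * u (z i)) * k ^ n * u (z m)⁻¹ := by
            rw [h.left _ hn, eta_self hz, one_smul]
            simp only [mul_assoc]
        _ = _ := by rw [h.umul, inv_mul_cancel, h.uone, one_mul]
    · intro j _ hj
      rw [Finset.mul_sum]
      refine Finset.sum_eq_zero fun m _ => ?_
      rw [smul_mul_smul_comm]
      have : u (z i)⁻¹ * aeval s (eta z i) * (u (z j) * k ^ n * u (z m)⁻¹) = 0 := by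
        calc u (z i)⁻¹ * aeval s (eta z i) * (u (z j) * k ^ n * u (z m)⁻¹)
            = u (z i)⁻¹ * (aeval s (eta z i) * (u (z j) * k ^ n)) * u (z m)⁻¹ := by
              simp only [mul_assoc]
          _ = 0 := by rw [h.left _ hn, eta_ne (Ne.symm hj), zero_smul, mul_zero, zero_mul]
      rw [this, smul_zero]
    · simp
  rw [Finset.mul_sum, Finset.sum_mul]
  simp_rw [l1, l2]
  rw [Finset.sum_comm]
  refine Finset.sum_congr rfl fun m _ => ?_
  rw [← Finset.sum_smul]
  congr 1
  have h1 := congrFun (congrFun hD μ) m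
  rw [Matrix.mul_apply, Matrix.diagonal_mul] at h1
  exact h1.symm

end

end

end Pool.Agent.H259.RH
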