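import Pool.Agent.H259.RH.PD

/-!
# The shift and the diagonal unitary operators
-/

set_option autoImplicit false

open scoped InnerProductSpace ComplexConjugate

namespace Pool.Agent.H259.RH

variable {H : Type} [NormedAddCommGroup H] [InnerProductSpace ℂ H] [CompleteSpace H]

/-- an isometry which maps the basis to a given orthonormal sequence -/
lemma exists_isom {G : Type} [NormedAddCommGroup G] [InnerProductSpace ℂ G] [CompleteSpace G]
    {ι : Type} (b : HilbertBasis ι ℂ H) {v : ι → G} (hv : Orthonormal ℂ v) :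
    ∃ W : H →L[ℂ] G, (∀ x, ‖W x‖ = ‖x‖) ∧ ∀ i, W (b i) = v i := by
  classical
  let V := hv.orthogonalFamily.linearIsometry
  refine ⟨(V.comp b.repr.toLinearIsometry).toContinuousLinearMap, fun x => ?_, fun i => ?_⟩
  · exact (V.comp b.repr.toLinearIsometry).norm_map x
  · change V (b.repr (b i)) = v i
    rw [HilbertBasis.repr_self, OrthogonalFamily.linearIsometry_apply_single,
      LinearIsometry.toSpanSingleton_apply, one_smul]

omit [CompleteSpace H] in
lemma ext_basis {ι : Type} (b : HilbertBasis ι ℂ H) {G : Type} [NormedAddCommGroup G]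
    [InnerProductSpace ℂ G] {A B : H →L[ℂ] G} (h : ∀ i, A (b i) = B (b i)) : A = B := by
  ext x
  have h1 := (b.hasSum_repr x).mapL A
  have h2 := (b.hasSum_repr x).mapL B
  refine h1.unique (h2.congr_fun fun i => ?_)
  rw [map_smul, map_smul, h]

omit [CompleteSpace H] in
lemma ext_inner {ι : Type} (b : HilbertBasis ι ℂ H) {x y : H} (h : ∀ i, ⟪b i, x⟫_ℂ = ⟪b i, y⟫_ℂ) :
    x = y := by
  apply b.repr.injective
  ext i
  rw [HilbertBasis.repr_apply_apply, HilbertBasis.repr_apply_apply, h]

section
variable (b : HilbertBasis ℕ ℂ H)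

omit [CompleteSpace H] in
lemma shift_orth : Orthonormal ℂ fun i : ℕ => b (i + 1) :=
  b.orthonormal.comp _ (add_left_injective 1)

/-- the unilateral shift -/
noncomputable def S : H →L[ℂ] H := (exists_isom b (shift_orth b)).choose

lemma S_norm (x : H) : ‖S b x‖ = ‖x‖ := (exists_isom b (shift_orth b)).choose_spec.1 x

lemma S_b (i : ℕ) : S b (b i) = b (i + 1) := (exists_isom b (shift_orth b)).choose_spec.2 i

omit [CompleteSpace H] in
lemma diag_orth (z : Circle) : Orthonormal ℂ fun i : ℕ => ((z : ℂ) ^ i) • b i := by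
  rw [orthonormal_iff_ite]
  intro i j
  rw [inner_smul_left, inner_smul_right]
  have h := orthonormal_iff_ite.1 b.orthonormal i j
  rw [h]
  split_ifs with hij
  · subst hij
    rw [mul_one, Complex.conj_mul', norm_pow, Circle.norm_coe]
    simp
  · simp

/-- the diagonal unitary operator with the entries `z ^ i` -/
noncomputable def U (z : Circle) : H →L[ℂ] H := (exists_isom b (diag_orth b z)).choose

lemma U_norm (z : Circle) (x : H) : ‖U b z x‖ = ‖x‖ := (exists_isom b (diag_orth b z)).choose_spec.1 x

lemma U_b (z : Circle) (i : ℕ) : U b z (b i) = ((z : ℂ) ^ i) • b i :=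
  (exists_isom b (diag_orth b z)).choose_spec.2 i

lemma U_mul (z w : Circle) : U b z * U b w = U b (z * w) := by
  refine ext_basis b fun i => ?_
  rw [mul_apply_eq_comp, U_b, map_smul, U_b, U_b, smul_smul, Circle.coe_mul, mul_pow,
    mul_comm]

lemma U_one : U b 1 = 1 := by
  refine ext_basis b fun i => ?_
  rw [U_b, Circle.coe_one, one_pow, one_smul]
  rfl

lemma U_S (z : Circle) : U b z * S b = (z : ℂ) • (S b * U b z) := by
  refine ext_basis b fun i => ?_
  rw [mul_apply_eq_comp, S_b, U_b, _root_.smul_apply, mul_apply_eq_comp, U_b,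
    map_smul, S_b, smul_smul, pow_succ, mul_comm]

lemma U_adj (z : Circle) : ContinuousLinearMap.adjoint (U b z) = U b z⁻¹ := by
  refine ext_basis b fun j => ?_
  refine ext_inner b fun i => ?_
  rw [ContinuousLinearMap.adjoint_inner_right, U_b, U_b, inner_smul_left, inner_smul_right]
  have h := orthonormal_iff_ite.1 b.orthonormal i j
  rw [h]
  split_ifs with hij
  · subst hij
    rw [Circle.coe_inv_eq_conj, map_pow]
  · simp

end

end Pool.Agent.H259.RH
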