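import Pool.Agent.H259.RH.Basis
import Pool.Agent.H259.RH.Alg

/-!
# Direct sums, curves, Hilbert-Schmidt kernels
-/

set_option autoImplicit false

open scoped InnerProductSpace ComplexConjugate
open Polynomial

namespace Pool.Agent.H259.RH

section Sum
variable {H : Type} [NormedAddCommGroup H] [InnerProductSpace ℂ H] [CompleteSpace H]
variable {ι : Type} [Fintype ι] [DecidableEq ι]

/-- the Hilbert space sum of copies of `H` -/
abbrev GG (H : Type) [NormedAddCommGroup H] (ι : Type) := PiLp 2 (fun _ : ι => H)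

/-- the equivalence with the product -/
noncomputable def ee (H : Type) [NormedAddCommGroup H] [InnerProductSpace ℂ H] (ι : Type)
    [Fintype ι] : GG H ι ≃L[ℂ] (ι → H) := PiLp.continuousLinearEquiv 2 ℂ (fun _ : ι => H)

/-- a column of operators -/
noncomputable def stack (A : ι → (H →L[ℂ] H)) : H →L[ℂ] GG H ι :=
  ((ee H ι).symm : (ι → H) →L[ℂ] GG H ι).comp (ContinuousLinearMap.pi A)

omit [CompleteSpace H] [DecidableEq ι] in
lemma stack_apply (A : ι → (H →L[ℂ] H)) (x : H) (i : ι) : stack A x i = A i x := rfl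

omit [CompleteSpace H] [DecidableEq ι] in
lemma stack_sub (A B : ι → (H →L[ℂ] H)) : stack A - stack B = stack fun i => A i - B i := by
  ext x i
  rfl

/-- a coordinate -/
noncomputable def inc (i : ι) : H →L[ℂ] GG H ι := stack fun j => if j = i then 1 else 0

omit [CompleteSpace H] in
lemma stack_eq (A : ι → (H →L[ℂ] H)) : stack A = ∑ i, (inc i).comp (A i) := by
  ext x j
  rw [stack_apply]
  have h1 : (∑ i, (inc i).comp (A i)) x = ∑ i, inc i (A i x) := by
    rw [_root_.sum_apply]
    rfl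
  rw [h1]
  have h2 : (∑ i, inc i (A i x) : GG H ι) j = ∑ i, (inc i (A i x) : GG H ι) j := by
    rw [WithLp.ofLp_sum, Finset.sum_apply]
  rw [h2, Finset.sum_eq_single j]
  · unfold inc
    rw [stack_apply, if_pos rfl]
    rfl
  · intro i _ hij
    unfold inc
    rw [stack_apply, if_neg (Ne.symm hij)]
    rfl
  · simp

omit [CompleteSpace H] in
lemma PD.stack {A : ι → (H →L[ℂ] H)} (h : ∀ i, PD (A i)) : PD (stack A) := by
  rw [stack_eq]
  exact PD.sum _ _ fun i _ => (h i).comp_left _

/-- diagonal operators -/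
noncomputable def dg (A : ι → (H →L[ℂ] H)) : GG H ι →L[ℂ] GG H ι :=
  ((ee H ι).symm : (ι → H) →L[ℂ] GG H ι).comp
    (ContinuousLinearMap.pi fun i => (A i).comp ((ContinuousLinearMap.proj i).comp
      (ee H ι : GG H ι →L[ℂ] (ι → H))))

omit [CompleteSpace H] [DecidableEq ι] in
lemma dg_apply (A : ι → (H →L[ℂ] H)) (x : GG H ι) (i : ι) : dg A x i = A i (x i) := rfl

/-- the homomorphism -/
noncomputable def dgHom : (ι → (H →L[ℂ] H)) →ₐ[ℂ] (GG H ι →L[ℂ] GG H ι) where
  toFun := dg
  map_one' := by ext x i; rfl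
  map_mul' _ _ := by ext x i; rfl
  map_zero' := by ext x i; rfl
  map_add' _ _ := by ext x i; rfl
  commutes' c := by ext x i; rfl

omit [CompleteSpace H] [DecidableEq ι] in
lemma spectrum_dg (A : ι → (H →L[ℂ] H)) :
    spectrum ℂ (dg A) ⊆ ⋃ i, spectrum ℂ (A i) := by
  have h1 := AlgHom.spectrum_apply_subset (dgHom (H := H) (ι := ι)) A
  rw [Pi.spectrum_eq] at h1
  exact h1

omit [DecidableEq ι] in
lemma adjoint_dg (A : ι → (H →L[ℂ] H)) :
    ContinuousLinearMap.adjoint (dg A) = dg fun i => ContinuousLinearMap.adjoint (A i) := by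
  symm
  rw [ContinuousLinearMap.eq_adjoint_iff]
  intro x y
  rw [PiLp.inner_apply, PiLp.inner_apply]
  refine Finset.sum_congr rfl fun i _ => ?_
  rw [dg_apply, dg_apply, ContinuousLinearMap.adjoint_inner_left]

lemma normal_dg {A : ι → (H →L[ℂ] H)} (h : ∀ i, IsStarNormal (A i)) : IsStarNormal (dg A) := by
  refine ⟨?_⟩
  rw [ContinuousLinearMap.star_eq_adjoint, adjoint_dg]
  have h1 : ∀ i, ContinuousLinearMap.adjoint (A i) * A i = A i * ContinuousLinearMap.adjoint (A i) := by
    intro i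
    have := (h i).star_comm_self
    rw [ContinuousLinearMap.star_eq_adjoint] at this
    exact this
  change dgHom _ * dgHom _ = dgHom _ * dgHom _
  rw [← map_mul, ← map_mul]
  congr 1
  funext i
  exact h1 i

end Sum

section Curve

/-- loops at zero -/
def LoopSet (Γ : Set ℂ) : Prop :=
  ∃ (γ : ℝ → ℂ) (L : NNReal), LipschitzWith L γ ∧ γ 0 = 0 ∧ γ 1 = 0 ∧ Γ ⊆ γ '' Set.Icc 0 1

/-- the clamp -/
noncomputable def cl (t : ℝ) : ℝ := max 0 (min 1 t)

lemma cl_lip : LipschitzWith 1 cl := by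
  have h1 : LipschitzWith 1 (fun t : ℝ => min 1 t) := by
    simpa using (LipschitzWith.id (α := ℝ)).const_min 1
  have h2 := h1.const_max 0
  exact h2

lemma cl_of_mem {t : ℝ} (h : t ∈ Set.Icc (0 : ℝ) 1) : cl t = t := by
  unfold cl
  rw [min_eq_right h.2, max_eq_right h.1]

lemma cl_of_le {t : ℝ} (h : t ≤ 0) : cl t = 0 := by
  unfold cl
  rw [min_eq_right (by linarith), max_eq_left h]

lemma cl_of_ge {t : ℝ} (h : 1 ≤ t) : cl t = 1 := by
  unfold cl
  rw [min_eq_left h, max_eq_right zero_le_one]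

lemma LoopSet.union {Γ Γ' : Set ℂ} (h : LoopSet Γ) (h' : LoopSet Γ') : LoopSet (Γ ∪ Γ') := by
  obtain ⟨γ, L, hL, h0, h1, hs⟩ := h
  obtain ⟨γ', L', hL', h0', h1', hs'⟩ := h'
  have ha : LipschitzWith 2 (fun t : ℝ => 2 * t) := by
    refine LipschitzWith.of_dist_le_mul fun x y => ?_
    rw [Real.dist_eq, Real.dist_eq, ← mul_sub, abs_mul]
    simp
  have hb : LipschitzWith 2 (fun t : ℝ => 2 * t - 1) := by
    refine LipschitzWith.of_dist_le_mul fun x y => ?_
    rw [Real.dist_eq, Real.dist_eq]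
    have : 2 * x - 1 - (2 * y - 1) = 2 * (x - y) := by ring
    rw [this, abs_mul]
    simp
  refine ⟨fun t => γ (cl (2 * t)) + γ' (cl (2 * t - 1)), _,
    (hL.comp (cl_lip.comp ha)).add (hL'.comp (cl_lip.comp hb)), ?_, ?_, ?_⟩
  · simp only [mul_zero]
    rw [cl_of_mem (by norm_num : (0 : ℝ) ∈ Set.Icc (0 : ℝ) 1), cl_of_le (by norm_num), h0, h0',
      add_zero]
  · simp only [mul_one]
    rw [cl_of_ge (by norm_num), cl_of_ge (by norm_num), h1, h1', add_zero]
  · rintro x (hx | hx)
    · obtain ⟨t, ht, rfl⟩ := hs hx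
      refine ⟨t / 2, ⟨by linarith [ht.1], by linarith [ht.2]⟩, ?_⟩
      have e1 : 2 * (t / 2) = t := by ring
      simp only
      rw [e1, cl_of_mem ht, cl_of_le (by linarith [ht.2]), h0', add_zero]
    · obtain ⟨t, ht, rfl⟩ := hs' hx
      refine ⟨(t + 1) / 2, ⟨by linarith [ht.1], by linarith [ht.2]⟩, ?_⟩
      have e1 : 2 * ((t + 1) / 2) = t + 1 := by ring
      simp only
      rw [e1, cl_of_ge (by linarith [ht.1]), add_sub_cancel_right, cl_of_mem ht, h1, zero_add]

/-- a segment through zero -/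
lemma loop_seg (d : ℂ) (R : ℝ) : LoopSet {x | ∃ t : ℝ, |t| ≤ R ∧ x = d * t} := by
  rcases lt_or_ge R 0 with hR | hR
  · refine ⟨fun _ => 0, 0, LipschitzWith.const 0, rfl, rfl, ?_⟩
    rintro x ⟨t, ht, -⟩
    linarith [abs_nonneg t]
  have hsin : LipschitzWith (Real.toNNReal (‖d‖ * R * (2 * Real.pi)))
      (fun t : ℝ => d * ((R * Real.sin (2 * Real.pi * t) : ℝ) : ℂ)) := by
    refine LipschitzWith.of_dist_le_mul fun x y => ?_
    rw [Real.coe_toNNReal _ (by positivity), dist_eq_norm, ← mul_sub, norm_mul, ← Complex.ofReal_sub,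
      Complex.norm_real, Real.norm_eq_abs, ← mul_sub, abs_mul, abs_of_nonneg hR, Real.dist_eq]
    have h1 : |Real.sin (2 * Real.pi * x) - Real.sin (2 * Real.pi * y)| ≤
        |2 * Real.pi * x - 2 * Real.pi * y| := by
      have := Real.lipschitzWith_sin.dist_le_mul (2 * Real.pi * x) (2 * Real.pi * y)
      simpa [Real.dist_eq] using this
    rw [← mul_sub, abs_mul, abs_of_pos (by positivity : (0 : ℝ) < 2 * Real.pi)] at h1
    calc ‖d‖ * (R * |Real.sin (2 * Real.pi * x) - Real.sin (2 * Real.pi * y)|)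
        ≤ ‖d‖ * (R * (2 * Real.pi * |x - y|)) := by gcongr
      _ = _ := by ring
  refine ⟨_, _, hsin, by simp, by simp [Real.sin_two_pi], ?_⟩
  rintro x ⟨t, ht, rfl⟩
  rcases hR.eq_or_lt with h0 | h0
  · subst h0
    have : t = 0 := by
      have := abs_nonpos_iff.1 ht
      exact this
    subst this
    exact ⟨0, by simp, by simp⟩
  · have ht' := abs_le.1 ht
    have hu1 : -1 ≤ t / R := by rw [le_div_iff₀ h0]; linarith
    have hu2 : t / R ≤ 1 := by rw [div_le_one h0]; exact ht'.2
    have hs1 := Real.sin_arcsin hu1 hu2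
    have ha1 := Real.neg_pi_div_two_le_arcsin (t / R)
    have ha2 := Real.arcsin_le_pi_div_two (t / R)
    have hpi := Real.pi_pos
    rcases lt_or_ge (Real.arcsin (t / R)) 0 with hneg | hpos
    · refine ⟨(Real.arcsin (t / R) + 2 * Real.pi) / (2 * Real.pi), ⟨?_, ?_⟩, ?_⟩
      · apply div_nonneg <;> linarith
      · rw [div_le_one (by positivity)]; linarith
      · have e1 : 2 * Real.pi * ((Real.arcsin (t / R) + 2 * Real.pi) / (2 * Real.pi)) =
            Real.arcsin (t / R) + 2 * Real.pi := by field_simp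
        simp only
        rw [e1, Real.sin_add_two_pi, hs1]
        congr 2
        field_simp
    · refine ⟨Real.arcsin (t / R) / (2 * Real.pi), ⟨?_, ?_⟩, ?_⟩
      · positivity
      · rw [div_le_one (by positivity)]; linarith
      · have e1 : 2 * Real.pi * (Real.arcsin (t / R) / (2 * Real.pi)) = Real.arcsin (t / R) := by
          field_simp
        simp only
        rw [e1, hs1]
        congr 2
        field_simp

lemma loop_union {ι : Type} (s : Finset ι) (Γ : ι → Set ℂ) (h : ∀ i ∈ s, LoopSet (Γ i)) :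
    LoopSet (⋃ i ∈ s, Γ i) := by
  classical
  induction s using Finset.induction_on with
  | empty =>
    refine ⟨fun _ => 0, 0, LipschitzWith.const 0, rfl, rfl, ?_⟩
    simp
  | insert a s ha ih =>
    rw [Finset.set_biUnion_insert]
    exact (h a (Finset.mem_insert_self _ _)).union
      (ih fun i hi => h i (Finset.mem_insert_of_mem hi))

end Curve

end Pool.Agent.H259.RH
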