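import Pool.Agent.H259.RH.Main

/-!
# Kernels: Hilbert-Schmidt operators, the Hilbert matrix
-/

set_option autoImplicit false

open scoped InnerProductSpace ComplexConjugate ENNReal
open Polynomial MeasureTheory

namespace Pool.Agent.H259.RH

variable {H : Type} [NormedAddCommGroup H] [InnerProductSpace ℂ H] [CompleteSpace H]

/-- Hilbert-Schmidt operators in terms of matrices -/
lemma PD.of_matrix (b : HilbertBasis ℕ ℂ H) (D : H →L[ℂ] H) (d : ℕ → ℕ → ℂ)
    (hd : ∀ i j, ⟪b i, D (b j)⟫_ℂ = d i j) (hs : Summable fun p : ℕ × ℕ => ‖d p.1 p.2‖ ^ 2) :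
    PD D := by
  refine PD.of_hs b D ?_
  have h1 : ∑' j, ENNReal.ofReal (‖D (b j)‖ ^ 2) ≠ ⊤ := by
    have h2 : ∀ j, ENNReal.ofReal (‖D (b j)‖ ^ 2) = ∑' i, ENNReal.ofReal (‖d i j‖ ^ 2) := by
      intro j
      rw [← Pool.Agent.K4H47.HS.parseval b (D (b j))]
      refine tsum_congr fun i => ?_
      rw [hd]
    simp_rw [h2]
    rw [ENNReal.tsum_comm, ← ENNReal.tsum_prod (f := fun i j => ENNReal.ofReal (‖d i j‖ ^ 2)),
      ← ENNReal.ofReal_tsum_of_nonneg (fun _ => sq_nonneg _) hs]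
    exact ENNReal.ofReal_ne_top
  have h3 := ENNReal.summable_toReal h1
  refine h3.congr fun i => ?_
  rw [ENNReal.toReal_ofReal (sq_nonneg _)]

lemma summable_hankel (f : ℕ → ℝ) (h0 : ∀ n, 0 ≤ f n)
    (h : Summable fun n : ℕ => ((n : ℝ) + 1) * f n) : Summable fun p : ℕ × ℕ => f (p.1 + p.2) := by
  rw [← Finset.HasAntidiagonal.sigmaAntidiagonalEquivProd.summable_iff]
  set g : (Σ n : ℕ, Finset.HasAntidiagonal.antidiagonal n) → ℝ := (fun p : ℕ × ℕ => f (p.1 + p.2)) ∘
      Finset.HasAntidiagonal.sigmaAntidiagonalEquivProd with hg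
  have e : ∀ (n : ℕ) (y : Finset.HasAntidiagonal.antidiagonal n), g ⟨n, y⟩ = f n := by
    intro n y
    have := Finset.HasAntidiagonal.mem_antidiagonal.1 y.2
    change f (y.1.1 + y.1.2) = f n
    rw [this]
  have hg0 : ∀ x, 0 ≤ g x := fun x => h0 _
  rw [summable_sigma_of_nonneg hg0]
  refine ⟨fun n => ?_, ?_⟩
  · exact (hasSum_fintype _).summable
  · refine h.congr fun n => ?_
    simp_rw [e n]
    rw [tsum_fintype, Finset.sum_const, Finset.card_univ, Fintype.card_coe,
      Finset.Nat.card_antidiagonal, nsmul_eq_mul]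
    push_cast
    ring

section
variable (b : HilbertBasis ℕ ℂ H)

lemma S_adj_succ (j : ℕ) : ContinuousLinearMap.adjoint (S b) (b (j + 1)) = b j := by
  refine ext_inner b fun i => ?_
  rw [ContinuousLinearMap.adjoint_inner_right, S_b]
  have h := orthonormal_iff_ite.1 b.orthonormal
  rw [h, h]
  simp

lemma S_adj_zero : ContinuousLinearMap.adjoint (S b) (b 0) = 0 := by
  refine ext_inner b fun i => ?_
  rw [ContinuousLinearMap.adjoint_inner_right, S_b, inner_zero_right]
  have h := orthonormal_iff_ite.1 b.orthonormal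
  rw [h]
  simp

lemma S_coisom : (1 : H →L[ℂ] H) - S b * ContinuousLinearMap.adjoint (S b) =
    (innerSL ℂ (b 0)).smulRight (b 0) := by
  refine ext_basis b fun j => ?_
  have h := orthonormal_iff_ite.1 b.orthonormal
  have h1 : ((1 : H →L[ℂ] H) - S b * ContinuousLinearMap.adjoint (S b)) (b j) =
      b j - S b (ContinuousLinearMap.adjoint (S b) (b j)) := rfl
  have h2 : ((innerSL ℂ (b 0)).smulRight (b 0) : H →L[ℂ] H) (b j) = ⟪b 0, b j⟫_ℂ • b 0 := rfl
  rw [h1, h2, h]
  cases j with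
  | zero => rw [S_adj_zero]; simp
  | succ j => rw [S_adj_succ, S_b]; simp

/-- slowly varying kernels absorb the shift -/
lemma slow {K : H →L[ℂ] H} {k : ℕ → ℕ → ℝ} (hk : ∀ i j, ⟪b i, K (b j)⟫_ℂ = (k i j : ℂ))
    (hsym : ∀ i j, k i j = k j i)
    (hs : Summable fun p : ℕ × ℕ => (k (p.1 + 1) p.2 - k p.1 p.2) ^ 2) :
    IsSelfAdjoint K ∧ PD (S b * K - K) ∧ PD (K * S b - K) := by
  have hsa : IsSelfAdjoint K := by
    rw [ContinuousLinearMap.isSelfAdjoint_iff']
    refine ext_basis b fun j => ext_inner b fun i => ?_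
    rw [ContinuousLinearMap.adjoint_inner_right, hk, ← inner_conj_symm, hk, Complex.conj_ofReal,
      hsym]
  have h1 : PD (ContinuousLinearMap.adjoint (S b) * K - K) := by
    refine PD.of_matrix b _ (fun i j => ((k (i + 1) j - k i j : ℝ) : ℂ)) (fun i j => ?_) ?_
    · have e : (ContinuousLinearMap.adjoint (S b) * K - K) (b j) =
          ContinuousLinearMap.adjoint (S b) (K (b j)) - K (b j) := rfl
      rw [e, inner_sub_right, ContinuousLinearMap.adjoint_inner_right, S_b, hk, hk]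
      push_cast
      rfl
    · refine hs.congr fun p => ?_
      rw [Complex.norm_real, Real.norm_eq_abs, sq_abs]
  have h2 : PD (K * S b - K) := by
    refine PD.of_matrix b _ (fun i j => ((k (j + 1) i - k j i : ℝ) : ℂ)) (fun i j => ?_) ?_
    · have e : (K * S b - K) (b j) = K (S b (b j)) - K (b j) := rfl
      rw [e, inner_sub_right, S_b, hk, hk, hsym i (j + 1), hsym i j]
      push_cast
      rfl
    · have h3 := (Equiv.prodComm ℕ ℕ).summable_iff.2 hs
      refine h3.congr fun p => ?_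
      rw [Complex.norm_real, Real.norm_eq_abs, sq_abs]
      rfl
  refine ⟨hsa, ?_, h2⟩
  have h4 : S b * K - K = -((S b).comp (ContinuousLinearMap.adjoint (S b) * K - K)) -
      (((innerSL ℂ (b 0)).smulRight (b 0) : H →L[ℂ] H)).comp K := by
    rw [← S_coisom]
    ext x
    simp only [mul_apply_eq_comp, _root_.sub_apply, _root_.neg_apply, ContinuousLinearMap.comp_apply,
      map_sub, one_apply_eq_self]
    abel
  rw [h4]
  exact (h1.comp_left _).neg.sub ((PD.of_rk (Rk.rankOne _ _)).comp_right _)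

/-- the matrix of the principal part -/
lemma tt_matrix {ι : Type} [Fintype ι] [DecidableEq ι] {K : H →L[ℂ] H} {k : ℕ → ℕ → ℝ}
    (hk : ∀ i j, ⟪b i, K (b j)⟫_ℂ = (k i j : ℂ)) (z : ι → Circle) (C : Matrix ι ι ℂ) (i j : ℕ) :
    ⟪b i, tt K (U b) z C 1 (b j)⟫_ℂ =
      (∑ l, ∑ m, C l m * (z l : ℂ) ^ i * (((z m)⁻¹ : Circle) : ℂ) ^ j) * (k i j : ℂ) := by
  unfold tt
  have e : (∑ l, ∑ m, C l m • (U b (z l) * K ^ 1 * U b (z m)⁻¹)) (b j) =
      ∑ l, ∑ m, C l m • U b (z l) (K (U b (z m)⁻¹ (b j))) := by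
    rw [_root_.sum_apply]
    refine Finset.sum_congr rfl fun l _ => ?_
    rw [_root_.sum_apply]
    refine Finset.sum_congr rfl fun m _ => ?_
    rw [pow_one]
    rfl
  rw [e, inner_sum, Finset.sum_mul]
  refine Finset.sum_congr rfl fun l _ => ?_
  rw [inner_sum, Finset.sum_mul]
  refine Finset.sum_congr rfl fun m _ => ?_
  have h1 : ⟪b i, U b (z l) (K (U b (z m)⁻¹ (b j)))⟫_ℂ =
      ⟪ContinuousLinearMap.adjoint (U b (z l)) (b i), K (U b (z m)⁻¹ (b j))⟫_ℂ := by
    rw [ContinuousLinearMap.adjoint_inner_left]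
  rw [inner_smul_right, h1, U_adj, U_b, U_b, map_smul, inner_smul_left, inner_smul_right, hk,
    map_pow, Circle.coe_inv_eq_conj, Complex.conj_conj]
  ring

end

section Hilbert

local instance : Fact ((0 : ℝ) < 1) := ⟨zero_lt_one⟩

/-- the sawtooth function -/
noncomputable def saw (x : UnitAddCircle) : ℂ := (periodizedBernoulli 1 x : ℂ)

lemma saw_meas : Measurable saw := by
  have h1 : Measurable (periodizedBernoulli 1) := by
    have h2 : periodizedBernoulli 1 =
        (Set.domRestrict (Set.Ico (0 : ℝ) (0 + 1)) (bernoulliFun 1)) ∘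
          (AddCircle.measurableEquivIco (1 : ℝ) 0) := rfl
    rw [h2]
    refine Measurable.comp ?_ (AddCircle.measurableEquivIco (1 : ℝ) 0).measurable
    exact ((Polynomial.continuous _).measurable).comp measurable_subtype_coe
  exact Complex.measurable_ofReal.comp h1

lemma saw_bound (x : UnitAddCircle) : ‖saw x‖ ≤ 1 := by
  have h : saw x = ((bernoulliFun 1 ((AddCircle.equivIco (1 : ℝ) 0 x) : ℝ) : ℝ) : ℂ) := rfl
  rw [h, Complex.norm_real, Real.norm_eq_abs, bernoulliFun_one]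
  have h1 := (AddCircle.equivIco (1 : ℝ) 0 x).2
  rw [abs_le]
  constructor <;> linarith [h1.1, h1.2]

lemma saw_coeff (n : ℤ) : fourierCoeff saw n = -1 / (2 * Real.pi * Complex.I * n) := by
  have h := fourierCoeff_bernoulli_eq (k := 1) one_ne_zero n
  simp only [Nat.factorial_one, Nat.cast_one, pow_one] at h
  exact h

/-- the Hilbert matrix is the matrix of a bounded operator -/
lemma exists_hilbert (b : HilbertBasis ℕ ℂ H) : ∃ K : H →L[ℂ] H,
    ∀ i j : ℕ, ⟪b i, K (b j)⟫_ℂ = ((1 / ((i : ℝ) + j + 1) : ℝ) : ℂ) := by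
  have hmem : MemLp saw ⊤ (@AddCircle.haarAddCircle (1 : ℝ) _) :=
    memLp_top_of_bound saw_meas.aestronglyMeasurable 1 (Filter.Eventually.of_forall saw_bound)
  have ho := orthonormal_fourier (T := (1 : ℝ))
  obtain ⟨V, -, hV⟩ := exists_isom b (v := fun j : ℕ => fourierLp (T := (1 : ℝ)) 2 (j : ℤ))
    (ho.comp _ (fun i j hij => by simpa using hij))
  obtain ⟨W, -, hW⟩ := exists_isom b (v := fun i : ℕ => fourierLp (T := (1 : ℝ)) 2 (-((i : ℤ) + 1)))
    (ho.comp _ (fun i j hij => by simpa using hij))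
  let M : Lp ℂ 2 (@AddCircle.haarAddCircle (1 : ℝ) _) →L[ℂ] Lp ℂ 2 (@AddCircle.haarAddCircle (1 : ℝ) _) :=
    (ContinuousLinearMap.mul ℂ ℂ).holderL (@AddCircle.haarAddCircle (1 : ℝ) _) ⊤ 2 2 (hmem.toLp saw)
  have hM : ∀ n : ℤ, M (fourierLp 2 n) =ᵐ[AddCircle.haarAddCircle] fun x => saw x * fourier n x := by
    intro n
    have h1 := (ContinuousLinearMap.mul ℂ ℂ).coeFn_holder (r := 2) (hmem.toLp saw)
      (fourierLp (T := (1 : ℝ)) 2 n)
    refine h1.trans ?_
    filter_upwards [hmem.coeFn_toLp, coeFn_fourierLp (T := (1 : ℝ)) 2 n] with x hx hy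
    rw [hx, hy]
    rfl
  refine ⟨(2 * Real.pi * Complex.I) • ((ContinuousLinearMap.adjoint W).comp (M.comp V)),
    fun i j => ?_⟩
  have h1 : ((2 * Real.pi * Complex.I : ℂ) • ((ContinuousLinearMap.adjoint W).comp (M.comp V))) (b j) =
      (2 * Real.pi * Complex.I : ℂ) • (ContinuousLinearMap.adjoint W (M (V (b j)))) := rfl
  rw [h1, inner_smul_right, ContinuousLinearMap.adjoint_inner_right, hV, hW, L2.inner_def]
  have h2 : ∫ x, ⟪(fourierLp (T := (1 : ℝ)) 2 (-((i : ℤ) + 1)) : _ → ℂ) x,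
      (M (fourierLp 2 (j : ℤ)) : _ → ℂ) x⟫_ℂ ∂AddCircle.haarAddCircle =
      fourierCoeff saw (-((i : ℤ) + j + 1)) := by
    unfold fourierCoeff
    refine integral_congr_ae ?_
    filter_upwards [hM j, coeFn_fourierLp (T := (1 : ℝ)) 2 (-((i : ℤ) + 1))] with x hx hy
    rw [hx, hy]
    change (saw x * fourier (j : ℤ) x) * conj (fourier (-((i : ℤ) + 1)) x) = _
    rw [← fourier_neg, smul_eq_mul, mul_assoc, ← fourier_add, mul_comm]
    congr 2
    ring_nf
  rw [h2, saw_coeff]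
  have hpi : (Real.pi : ℂ) ≠ 0 := by exact_mod_cast Real.pi_ne_zero
  have hI := Complex.I_ne_zero
  have hij : ((i : ℂ) + j + 1) ≠ 0 := by
    have : ((i + j + 1 : ℕ) : ℂ) ≠ 0 := by exact_mod_cast (by omega : i + j + 1 ≠ 0)
    push_cast at this
    exact this
  push_cast
  field_simp

end Hilbert

end Pool.Agent.H259.RH
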