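import Pool.Agent.H259.RH.Diag
import Pool.Graph.R_pool_sql_team_seeded_c8625f6e.K4H63.RD.B9

/-!
# Reductive operators with slowly varying kernels times characters
-/

set_option autoImplicit false

open scoped InnerProductSpace ComplexConjugate
open Polynomial

namespace Pool.Agent.H259.RH

variable {H : Type} [NormedAddCommGroup H] [InnerProductSpace ℂ H] [CompleteSpace H]

omit [CompleteSpace H] in
/-- the quotient algebra -/
lemma exists_quot : ∃ (Q : Type) (_ : Ring Q) (_ : Algebra ℂ Q) (π : (H →L[ℂ] H) →ₐ[ℂ] Q),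
    ∀ x, π x = 0 ↔ PD x := by
  let I : TwoSidedIdeal (H →L[ℂ] H) := TwoSidedIdeal.mk' {x | PD x} PD.zero
    (fun hx hy => PD.add hx hy) (fun hx => PD.neg hx) (fun hy => PD.comp_left hy _)
    (fun hx => PD.comp_right hx _)
  refine ⟨I.ringCon.Quotient, inferInstance, inferInstance, I.ringCon.mkₐ (α := ℂ), fun x => ?_⟩
  have h1 : (I.ringCon.mkₐ (α := ℂ)) x = 0 ↔ x ∈ I := by
    rw [TwoSidedIdeal.mem_iff, ← RingCon.eq]
    rfl
  rw [h1]
  exact TwoSidedIdeal.mem_mk' _ _ _ _ _ _ x

/-- spectra of multiples of powers of selfadjoint operators -/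
lemma spectrum_seg {A : H →L[ℂ] H} (hA : IsSelfAdjoint A) (d : ℂ) :
    spectrum ℂ (d • A) ⊆ {x | ∃ t : ℝ, |t| ≤ ‖A‖ ∧ x = d * t} := by
  intro z hz
  by_cases hd : d = 0
  · subst hd
    rw [zero_smul] at hz
    have hz0 : z = 0 := by
      by_contra hne
      apply hz
      rw [spectrum.mem_resolventSet_iff, sub_zero]
      exact (isUnit_iff_ne_zero.2 hne).map (algebraMap ℂ (H →L[ℂ] H))
    exact ⟨0, by simp, by simp [hz0]⟩
  · have h1 : d⁻¹ * z ∈ spectrum ℂ A := by
      have h2 := spectrum.unit_smul_eq_smul A (Units.mk0 d hd)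
      have h3 : (Units.mk0 d hd) • A = d • A := rfl
      rw [h3] at h2
      rw [h2] at hz
      obtain ⟨w, hw, rfl⟩ := hz
      have h5 : d⁻¹ * (d * w) = w := by
        rw [← mul_assoc, inv_mul_cancel₀ hd, one_mul]
      change d⁻¹ * (d * w) ∈ spectrum ℂ A
      rw [h5]
      exact hw
    have hre := hA.mem_spectrum_eq_re h1
    have hnt : Nontrivial H := by
      by_contra hn
      rw [not_nontrivial_iff_subsingleton] at hn
      have : Subsingleton (H →L[ℂ] H) := inferInstance
      exact h1 (isUnit_of_subsingleton _)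
    refine ⟨(d⁻¹ * z).re, ?_, ?_⟩
    · have h4 := spectrum.norm_le_norm_of_mem h1
      exact (Complex.abs_re_le_norm _).trans h4
    · rw [← hre, ← mul_assoc, mul_inv_cancel₀ hd, one_mul]

section main
variable {ι : Type} [Fintype ι] [DecidableEq ι] [Nonempty ι] (b : HilbertBasis ℕ ℂ H)

/-- the localised components -/
noncomputable def JJ (z : ι → Circle) (R : Matrix ι ι ℂ) (μ : ι) : H →L[ℂ] H :=
  ∑ i, R μ i • (U b (z i)⁻¹ * aeval (S b) (eta z i))

/-- the theorem in operator form -/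
theorem core {K : H →L[ℂ] H} (hK : IsSelfAdjoint K) (h1 : PD (S b * K - K)) (h2 : PD (K * S b - K))
    {z : ι → Circle} (hz : Function.Injective z) (C : Matrix ι ι ℂ) {n : ℕ} (hn : n ≠ 0)
    (P R : Matrix ι ι ℂ) (hPR : P * R = 1) (D : ι → ℂ) (hD : R * C ^ n = Matrix.diagonal D * R)
    {T : H →L[ℂ] H} (hT : PD (T - tt K (U b) z C 1))
    (hred : Pool.Agent.W706.HIR.Reductive T) : IsStarNormal T := by
  obtain ⟨Q, hQ1, hQ2, π, hπ⟩ := exists_quot (H := H)
  have hrel : Rel (π (S b)) (π K) (fun w => π (U b w)) := by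
    refine ⟨fun z w => ?_, ?_, fun z => ?_, ?_, ?_⟩
    · rw [← map_mul, U_mul]
    · rw [U_one, map_one]
    · rw [← map_mul, U_S, map_smul, map_mul]
    · rw [← map_mul, ← sub_eq_zero, ← map_sub]
      exact (hπ _).2 h1
    · rw [← map_mul, ← sub_eq_zero, ← map_sub]
      exact (hπ _).2 h2
  have hTt : π T = tt (π K) (fun w => π (U b w)) z C 1 := by
    have h3 : π T = π (tt K (U b) z C 1) := by
      rw [← sub_eq_zero, ← map_sub]
      exact (hπ _).2 hT
    rw [h3]
    unfold tt
    simp only [map_sum, map_smul, map_mul, map_pow]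
  have hcomp : ∀ μ, PD ((D μ • K ^ n) * JJ b z R μ - JJ b z R μ * T ^ n) := by
    intro μ
    rw [← hπ, map_sub, sub_eq_zero]
    have h3 := hrel.main z C hz hn R D hD μ
    unfold JJ
    simp only [map_sum, map_smul, map_mul, map_pow, ← aeval_algHom_apply, hTt]
    exact h3
  -- the operators
  set N : GG H ι →L[ℂ] GG H ι := dg fun μ => D μ • K ^ n with hN
  set J : H →L[ℂ] GG H ι := stack fun μ => JJ b z R μ with hJ
  have hsa : IsSelfAdjoint (K ^ n) := hK.pow n
  have hNn : IsStarNormal N := by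
    refine normal_dg fun μ => ?_
    refine ⟨?_⟩
    rw [star_smul, hsa.star_eq]
    exact (Commute.refl _).smul_left _ |>.smul_right _
  obtain ⟨γ, L, hγ, -, -, hsub⟩ := loop_union (Finset.univ : Finset ι)
    (fun μ => {x : ℂ | ∃ t : ℝ, |t| ≤ ‖K ^ n‖ ∧ x = D μ * t}) (fun μ _ => loop_seg _ _)
  have hspec : spectrum ℂ N ⊆ γ '' Set.Icc 0 1 := by
    refine (spectrum_dg _).trans (Set.Subset.trans ?_ hsub)
    intro x hx
    obtain ⟨μ, hμ⟩ := Set.mem_iUnion.1 hx
    exact Set.mem_biUnion (Finset.mem_coe.2 (Finset.mem_univ μ)) (spectrum_seg hsa _ hμ)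
  have hq : 0 < (X ^ n : ℂ[X]).natDegree := by
    rw [natDegree_X_pow]
    exact Nat.pos_of_ne_zero hn
  have hdecay : PD (N.comp J - J.comp (aeval T (X ^ n : ℂ[X]))) := by
    have h3 : N.comp J - J.comp (aeval T (X ^ n : ℂ[X])) =
        stack fun μ => (D μ • K ^ n) * JJ b z R μ - JJ b z R μ * T ^ n := by
      rw [map_pow, aeval_X]
      ext x i
      rfl
    rw [h3]
    exact PD.stack hcomp
  -- bounded below
  have hone : (1 : H →L[ℂ] H) = ∑ i, ∑ μ, P i μ • (U b (z i) * JJ b z R μ) := by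
    have h3 : ∀ i, ∑ μ, P i μ • JJ b z R μ = U b (z i)⁻¹ * aeval (S b) (eta z i) := by
      intro i
      unfold JJ
      simp_rw [Finset.smul_sum, smul_smul]
      rw [Finset.sum_comm]
      simp_rw [← Finset.sum_smul]
      have h4 : ∀ j, ∑ μ, P i μ * R μ j = (1 : Matrix ι ι ℂ) i j := by
        intro j
        rw [← hPR, Matrix.mul_apply]
      simp_rw [h4, Matrix.one_apply]
      rw [Finset.sum_eq_single i]
      · simp
      · intro j _ hji
        simp [Ne.symm hji]
      · simp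
    have h5 : ∀ i, ∑ μ, P i μ • (U b (z i) * JJ b z R μ) = aeval (S b) (eta z i) := by
      intro i
      calc ∑ μ, P i μ • (U b (z i) * JJ b z R μ) = U b (z i) * ∑ μ, P i μ • JJ b z R μ := by
            rw [Finset.mul_sum]
            refine Finset.sum_congr rfl fun μ _ => ?_
            rw [mul_smul_comm]
        _ = _ := by rw [h3, ← mul_assoc, U_mul, mul_inv_cancel, U_one, one_mul]
    simp_rw [h5]
    rw [← map_sum, eta_sum hz, map_one]
  have hbelow : ∃ c : ℝ, 0 < c ∧ ∀ x, c * ‖x‖ ≤ ‖J x‖ := by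
    set M : ℝ := 1 + ∑ i, ∑ μ, ‖P i μ‖ with hM
    have hM0 : 0 < M := by positivity
    refine ⟨M⁻¹, by positivity, fun x => ?_⟩
    rw [inv_mul_le_iff₀ hM0]
    have h3 : x = ∑ i, ∑ μ, P i μ • (U b (z i) (JJ b z R μ x)) := by
      have h4 := congrArg (fun A : H →L[ℂ] H => A x) hone
      simp only [_root_.sum_apply, _root_.smul_apply, mul_apply_eq_comp] at h4
      exact h4
    calc ‖x‖ ≤ ∑ i, ∑ μ, ‖P i μ‖ * ‖J x‖ := by
          conv_lhs => rw [h3]
          refine (norm_sum_le _ _).trans (Finset.sum_le_sum fun i _ => ?_)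
          refine (norm_sum_le _ _).trans (Finset.sum_le_sum fun μ _ => ?_)
          rw [norm_smul, U_norm]
          gcongr
          have h5 := PiLp.norm_apply_le (J x) μ
          rw [hJ, stack_apply] at h5
          exact h5
      _ = (∑ i, ∑ μ, ‖P i μ‖) * ‖J x‖ := by simp_rw [Finset.sum_mul]
      _ ≤ M * ‖J x‖ := by
          gcongr
          linarith
  exact Pool.Agent.K4H63.RD.final_curve hNn hγ hspec hred hq hbelow hdecay

end main

end Pool.Agent.H259.RH
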