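import Pool.Graph.R_pool_sql_team_seeded_c8625f6e.K4H47.HS.Svd1

/-!
# Operators with polynomially decaying approximation numbers
-/

set_option autoImplicit false

open scoped InnerProductSpace ComplexConjugate

namespace Pool.Agent.H259.RH

section
variable {H G K : Type} [NormedAddCommGroup H] [InnerProductSpace ℂ H]
  [NormedAddCommGroup G] [InnerProductSpace ℂ G] [NormedAddCommGroup K] [InnerProductSpace ℂ K]

/-- the approximation numbers decay at least like a negative power -/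
def PD (D : H →L[ℂ] G) : Prop :=
  ∃ C ε : ℝ, 0 < ε ∧ ∀ m : ℕ, 1 ≤ m → ∃ F : H →L[ℂ] G,
      FiniteDimensional ℂ (LinearMap.range (F : H →ₗ[ℂ] G)) ∧
      Module.finrank ℂ (LinearMap.range (F : H →ₗ[ℂ] G)) ≤ m ∧ ‖D - F‖ ≤ C / (m : ℝ) ^ ε

/-- rank at most `m` -/
def Rk (m : ℕ) (F : H →L[ℂ] G) : Prop :=
  FiniteDimensional ℂ (LinearMap.range (F : H →ₗ[ℂ] G)) ∧
      Module.finrank ℂ (LinearMap.range (F : H →ₗ[ℂ] G)) ≤ m

lemma Rk.mono {m n : ℕ} {F : H →L[ℂ] G} (h : Rk m F) (hmn : m ≤ n) : Rk n F := ⟨h.1, h.2.trans hmn⟩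

lemma Rk.zero (m : ℕ) : Rk m (0 : H →L[ℂ] G) := by
  have h0 : LinearMap.range ((0 : H →L[ℂ] G) : H →ₗ[ℂ] G) = ⊥ := LinearMap.range_zero
  refine ⟨?_, ?_⟩
  · rw [h0]; infer_instance
  · rw [h0]; simp

lemma Rk.add {m n : ℕ} {F F' : H →L[ℂ] G} (h : Rk m F) (h' : Rk n F') : Rk (m + n) (F + F') := by
  have hle : LinearMap.range ((F + F' : H →L[ℂ] G) : H →ₗ[ℂ] G) ≤
      LinearMap.range (F : H →ₗ[ℂ] G) ⊔ LinearMap.range (F' : H →ₗ[ℂ] G) := by
    rintro _ ⟨x, rfl⟩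
    exact Submodule.add_mem_sup ⟨x, rfl⟩ ⟨x, rfl⟩
  have := h.1
  have := h'.1
  have hf : FiniteDimensional ℂ ↥(LinearMap.range (F : H →ₗ[ℂ] G) ⊔ LinearMap.range (F' : H →ₗ[ℂ] G)) :=
    inferInstance
  refine ⟨Submodule.finiteDimensional_of_le hle, ?_⟩
  refine (Submodule.finrank_mono hle).trans ?_
  refine (Submodule.finrank_add_le_finrank_add_finrank _ _).trans ?_
  exact add_le_add h.2 h'.2

lemma Rk.comp_left {m : ℕ} {F : H →L[ℂ] G} (h : Rk m F) (A : G →L[ℂ] K) : Rk m (A.comp F) := by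
  have he : LinearMap.range ((A.comp F : H →L[ℂ] K) : H →ₗ[ℂ] K) =
      (LinearMap.range (F : H →ₗ[ℂ] G)).map (A : G →ₗ[ℂ] K) := by
    ext x
    constructor
    · rintro ⟨y, rfl⟩
      exact ⟨F y, ⟨y, rfl⟩, rfl⟩
    · rintro ⟨_, ⟨y, rfl⟩, rfl⟩
      exact ⟨y, rfl⟩
  have := h.1
  unfold Rk
  rw [he]
  exact ⟨inferInstance, (Submodule.finrank_map_le _ _).trans h.2⟩

lemma Rk.comp_right {m : ℕ} {F : H →L[ℂ] G} (h : Rk m F) (A : K →L[ℂ] H) : Rk m (F.comp A) := by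
  have hle : LinearMap.range ((F.comp A : K →L[ℂ] G) : K →ₗ[ℂ] G) ≤
      LinearMap.range (F : H →ₗ[ℂ] G) := by
    rintro _ ⟨x, rfl⟩
    exact ⟨A x, rfl⟩
  have := h.1
  exact ⟨Submodule.finiteDimensional_of_le hle, (Submodule.finrank_mono hle).trans h.2⟩

lemma Rk.rankOne (v : H) (u : G) : Rk 1 ((innerSL ℂ v).smulRight u : H →L[ℂ] G) := by
  have hle : LinearMap.range (((innerSL ℂ v).smulRight u : H →L[ℂ] G) : H →ₗ[ℂ] G) ≤
      Submodule.span ℂ {u} := by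
    rintro _ ⟨x, rfl⟩
    exact Submodule.smul_mem _ _ (Submodule.mem_span_singleton_self u)
  exact ⟨Submodule.finiteDimensional_of_le hle,
    (Submodule.finrank_mono hle).trans (by simpa using finrank_span_le_card (R := ℂ) ({u} : Set G))⟩

lemma Rk.sum {ι : Type} (s : Finset ι) (F : ι → H →L[ℂ] G) (h : ∀ i ∈ s, Rk 1 (F i)) :
    Rk s.card (∑ i ∈ s, F i) := by
  classical
  induction s using Finset.induction_on with
  | empty => simpa using Rk.zero 0
  | insert a s ha ih =>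
    rw [Finset.sum_insert ha, Finset.card_insert_of_notMem ha, add_comm s.card 1]
    exact (h a (Finset.mem_insert_self _ _)).add (ih fun i hi => h i (Finset.mem_insert_of_mem hi))

lemma PD.of_rk {m : ℕ} {D : H →L[ℂ] G} (h : Rk m D) : PD D := by
  refine ⟨‖D‖ * m, 1, one_pos, fun n hn => ?_⟩
  have hn0 : (0 : ℝ) < n := by exact_mod_cast hn
  by_cases hmn : m ≤ n
  · refine ⟨D, h.1, h.2.trans hmn, ?_⟩
    rw [sub_self, norm_zero]
    positivity
  · refine ⟨0, (Rk.zero n).1, (Rk.zero n).2, ?_⟩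
    rw [sub_zero, Real.rpow_one, le_div_iff₀ hn0]
    have : (n : ℝ) ≤ m := by exact_mod_cast (not_le.1 hmn).le
    gcongr

lemma PD.zero : PD (0 : H →L[ℂ] G) := PD.of_rk (Rk.zero 0)

lemma PD.comp_left {D : H →L[ℂ] G} (h : PD D) (A : G →L[ℂ] K) : PD (A.comp D) := by
  obtain ⟨C, ε, hε, h⟩ := h
  refine ⟨‖A‖ * C, ε, hε, fun m hm => ?_⟩
  obtain ⟨F, hF1, hF2, hF3⟩ := h m hm
  have hr := Rk.comp_left (⟨hF1, hF2⟩ : Rk m F) A
  refine ⟨A.comp F, hr.1, hr.2, ?_⟩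
  rw [← ContinuousLinearMap.comp_sub, mul_div_assoc]
  exact (ContinuousLinearMap.opNorm_comp_le _ _).trans (mul_le_mul_of_nonneg_left hF3 (norm_nonneg _))

lemma PD.comp_right {D : H →L[ℂ] G} (h : PD D) (A : K →L[ℂ] H) : PD (D.comp A) := by
  obtain ⟨C, ε, hε, h⟩ := h
  refine ⟨C * ‖A‖, ε, hε, fun m hm => ?_⟩
  obtain ⟨F, hF1, hF2, hF3⟩ := h m hm
  have hr := Rk.comp_right (⟨hF1, hF2⟩ : Rk m F) A
  refine ⟨F.comp A, hr.1, hr.2, ?_⟩
  rw [← ContinuousLinearMap.sub_comp, mul_div_right_comm]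
  exact (ContinuousLinearMap.opNorm_comp_le _ _).trans (mul_le_mul_of_nonneg_right hF3 (norm_nonneg _))

lemma PD.smul {D : H →L[ℂ] G} (h : PD D) (c : ℂ) : PD (c • D) := by
  have : c • D = (c • ContinuousLinearMap.id ℂ G).comp D := by
    ext x; simp
  rw [this]
  exact h.comp_left _

lemma PD.neg {D : H →L[ℂ] G} (h : PD D) : PD (-D) := by
  have := h.smul (-1)
  simpa using this

lemma PD.add {D D' : H →L[ℂ] G} (h : PD D) (h' : PD D') : PD (D + D') := by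
  obtain ⟨C, ε, hε, h⟩ := h
  obtain ⟨C', ε', hε', h'⟩ := h'
  set δ := min ε ε' with hδ
  have hδ0 : 0 < δ := lt_min hε hε'
  set M := (|C| + |C'|) * 3 ^ δ with hM
  have hM0 : 0 ≤ M := by positivity
  refine ⟨max ‖D + D'‖ M, δ, hδ0, fun m hm => ?_⟩
  have hm0 : (0 : ℝ) < m := by exact_mod_cast hm
  rcases Nat.lt_or_ge m 2 with hm2 | hm2
  · have : m = 1 := by omega
    subst this
    refine ⟨0, (Rk.zero 1).1, (Rk.zero 1).2, ?_⟩
    simp
  · set k := m / 2 with hk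
    have hk1 : 1 ≤ k := by omega
    have hkm : k + k ≤ m := by omega
    have h3k : m ≤ 3 * k := by omega
    have hk0 : (0 : ℝ) < k := by exact_mod_cast hk1
    have hk1' : (1 : ℝ) ≤ k := by exact_mod_cast hk1
    obtain ⟨F, hF1, hF2, hF3⟩ := h k hk1
    obtain ⟨F', hF1', hF2', hF3'⟩ := h' k hk1
    have hr := (Rk.add (⟨hF1, hF2⟩ : Rk k F) (⟨hF1', hF2'⟩ : Rk k F')).mono hkm
    refine ⟨F + F', hr.1, hr.2, ?_⟩
    have e1 : D + D' - (F + F') = (D - F) + (D' - F') := by abel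
    have b1 : C / (k : ℝ) ^ ε ≤ |C| / (k : ℝ) ^ δ := by
      refine (div_le_div_of_nonneg_right (le_abs_self C) (by positivity)).trans ?_
      exact div_le_div_of_nonneg_left (abs_nonneg C) (by positivity)
        (Real.rpow_le_rpow_of_exponent_le hk1' (min_le_left _ _))
    have b2 : C' / (k : ℝ) ^ ε' ≤ |C'| / (k : ℝ) ^ δ := by
      refine (div_le_div_of_nonneg_right (le_abs_self C') (by positivity)).trans ?_
      exact div_le_div_of_nonneg_left (abs_nonneg C') (by positivity)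
        (Real.rpow_le_rpow_of_exponent_le hk1' (min_le_right _ _))
    have b3 : (m : ℝ) ^ δ ≤ 3 ^ δ * (k : ℝ) ^ δ := by
      rw [← Real.mul_rpow (by norm_num) hk0.le]
      refine Real.rpow_le_rpow hm0.le ?_ hδ0.le
      exact_mod_cast h3k
    calc ‖D + D' - (F + F')‖ ≤ ‖D - F‖ + ‖D' - F'‖ := by rw [e1]; exact norm_add_le _ _
      _ ≤ |C| / (k : ℝ) ^ δ + |C'| / (k : ℝ) ^ δ := add_le_add (hF3.trans b1) (hF3'.trans b2)
      _ = (|C| + |C'|) / (k : ℝ) ^ δ := by ring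
      _ ≤ M / (m : ℝ) ^ δ := by
          rw [div_le_div_iff₀ (by positivity) (by positivity), hM]
          have : 0 ≤ |C| + |C'| := by positivity
          calc (|C| + |C'|) * (m : ℝ) ^ δ ≤ (|C| + |C'|) * (3 ^ δ * (k : ℝ) ^ δ) := by gcongr
            _ = _ := by ring
      _ ≤ max ‖D + D'‖ M / (m : ℝ) ^ δ := by
          gcongr
          exact le_max_right _ _

lemma PD.sub {D D' : H →L[ℂ] G} (h : PD D) (h' : PD D') : PD (D - D') := by
  rw [sub_eq_add_neg]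
  exact h.add h'.neg

lemma PD.sum {ι : Type} (s : Finset ι) (D : ι → H →L[ℂ] G) (h : ∀ i ∈ s, PD (D i)) :
    PD (∑ i ∈ s, D i) := by
  classical
  induction s using Finset.induction_on with
  | empty => simpa using PD.zero
  | insert a s ha ih =>
    rw [Finset.sum_insert ha]
    exact (h a (Finset.mem_insert_self _ _)).add (ih fun i hi => h i (Finset.mem_insert_of_mem hi))

end

section
open Pool.Agent.K4H47.HS
variable {H : Type} [NormedAddCommGroup H] [InnerProductSpace ℂ H] [CompleteSpace H]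

omit [CompleteSpace H] in
lemma norm_sq_sum_orth {ι : Type} (s : Finset ι) (v : ι → H) (ho : ∀ i j, i ≠ j → ⟪v i, v j⟫_ℂ = 0)
    (a : ι → ℂ) : ‖∑ i ∈ s, a i • v i‖ ^ 2 = ∑ i ∈ s, ‖a i‖ ^ 2 * ‖v i‖ ^ 2 := by
  classical
  have h : ⟪∑ i ∈ s, a i • v i, ∑ i ∈ s, a i • v i⟫_ℂ =
      ((∑ i ∈ s, ‖a i‖ ^ 2 * ‖v i‖ ^ 2 : ℝ) : ℂ) := by
    rw [sum_inner]
    push_cast
    refine Finset.sum_congr rfl fun i hi => ?_
    rw [inner_sum, Finset.sum_eq_single i]
    · rw [inner_smul_left, inner_smul_right, inner_self_eq_norm_sq_to_K, ← mul_assoc,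
        Complex.conj_mul']
      rfl
    · intro j _ hji
      rw [inner_smul_left, inner_smul_right, ho i j (Ne.symm hji), mul_zero, mul_zero]
    · intro h; exact absurd hi h
  have h5 := inner_self_eq_norm_sq_to_K (𝕜 := ℂ) (∑ i ∈ s, a i • v i)
  rw [h] at h5
  have h6 : ((∑ i ∈ s, ‖a i‖ ^ 2 * ‖v i‖ ^ 2 : ℝ) : ℂ) =
      ((‖∑ i ∈ s, a i • v i‖ ^ 2 : ℝ) : ℂ) := by
    rw [h5]; push_cast; rfl
  exact_mod_cast h6.symm

/-- Hilbert-Schmidt operators -/
lemma PD.of_hs {ι : Type} (b : HilbertBasis ι ℂ H) (K : H →L[ℂ] H)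
    (h : Summable fun i => ‖K (b i)‖ ^ 2) : PD K := by
  classical
  have hexp : ∀ {κ : Type} (b : HilbertBasis κ ℂ H) (g : H),
      HasSum (fun i => ⟪b i, g⟫_ℂ • K (b i)) (K g) := by
    intro κ b g
    have h1 := (b.hasSum_repr g).mapL K
    refine h1.congr_fun fun i => ?_
    rw [map_smul, HilbertBasis.repr_apply_apply]
  have hK : IsCompactOperator K :=
    compact_of_hasSum (hasSum_T1 (f := fun i => b i) (fun i j hij => b.orthonormal.2 hij)
      (fun i => (b.orthonormal.1 i).le) K h (hexp b))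
  have hKK : IsCompactOperator ((ContinuousLinearMap.adjoint K).comp K) := by
    have := hK.clm_comp (ContinuousLinearMap.adjoint K)
    exact this
  obtain ⟨κ, e, la, he⟩ := eigenbasis ((ContinuousLinearMap.adjoint K).comp K)
    hKK (by
      intro x y
      change ⟪ContinuousLinearMap.adjoint K (K x), y⟫_ℂ = ⟪x, ContinuousLinearMap.adjoint K (K y)⟫_ℂ
      rw [ContinuousLinearMap.adjoint_inner_left, ContinuousLinearMap.adjoint_inner_right])
  have horth : ∀ i j, i ≠ j → ⟪K (e i), K (e j)⟫_ℂ = 0 := by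
    intro i j hij
    have h1 := he j
    have h2 : ⟪K (e i), K (e j)⟫_ℂ = ⟪e i, ContinuousLinearMap.adjoint K (K (e j))⟫_ℂ := by
      rw [ContinuousLinearMap.adjoint_inner_right]
    rw [h2]
    change ((ContinuousLinearMap.adjoint K).comp K) (e j) = _ at h1
    rw [ContinuousLinearMap.comp_apply] at h1
    rw [h1, inner_smul_right, e.orthonormal.2 hij, mul_zero]
  have hs : Summable fun i => ‖K (e i)‖ ^ 2 := hs_indep b e K h
  set A : ℝ := ∑' i, ‖K (e i)‖ ^ 2 with hA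
  have hA0 : 0 ≤ A := tsum_nonneg fun _ => sq_nonneg _
  refine ⟨Real.sqrt A, 1 / 2, by norm_num, fun m hm => ?_⟩
  have hm0 : (0 : ℝ) < m := by exact_mod_cast hm
  set S : Set κ := {i | A / m < ‖K (e i)‖ ^ 2} with hS
  have hcard : ∀ t : Finset κ, (t : Set κ) ⊆ S → t.card ≤ m := by
    intro t ht
    by_contra hlt
    push Not at hlt
    have h1 : ∑ i ∈ t, ‖K (e i)‖ ^ 2 ≤ A := hs.sum_le_tsum _ fun _ _ => sq_nonneg _
    have hne : t.Nonempty := by
      rw [Finset.nonempty_iff_ne_empty]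
      rintro rfl
      simp at hlt
    have h2 : (t.card : ℝ) * (A / m) < ∑ i ∈ t, ‖K (e i)‖ ^ 2 := by
      rw [← nsmul_eq_mul, ← Finset.sum_const]
      exact Finset.sum_lt_sum_of_nonempty hne fun i hi => ht hi
    have h3 : (m : ℝ) ≤ t.card := by exact_mod_cast hlt.le
    have h4 : A ≤ (t.card : ℝ) * (A / m) := by
      calc A = m * (A / m) := by field_simp
        _ ≤ _ := by gcongr
    linarith
  have hfin : S.Finite := by
    by_contra hinf
    obtain ⟨t, ht1, ht2⟩ := (Set.not_finite.1 hinf : S.Infinite).exists_subset_card_eq (m + 1)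
    have := hcard t ht1
    omega
  set s : Finset κ := hfin.toFinset with hs'
  have hsm : s.card ≤ m := hcard s (by rw [hs', Set.Finite.coe_toFinset])
  have hr : Rk m (∑ i ∈ s, ((innerSL ℂ (e i)).smulRight (K (e i)) : H →L[ℂ] H)) :=
    (Rk.sum s _ fun i _ => Rk.rankOne _ _).mono hsm
  refine ⟨_, hr.1, hr.2, ?_⟩
  have hroot : Real.sqrt A / (m : ℝ) ^ (1 / 2 : ℝ) = Real.sqrt (A / m) := by
    rw [Real.sqrt_div hA0, ← Real.sqrt_eq_rpow]
  rw [hroot]
  refine ContinuousLinearMap.opNorm_le_bound _ (Real.sqrt_nonneg _) fun g => ?_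
  have h2 : (K - ∑ i ∈ s, ((innerSL ℂ (e i)).smulRight (K (e i)) : H →L[ℂ] H)) g =
      K g - ∑ i ∈ s, ⟪e i, g⟫_ℂ • K (e i) := by
    rw [_root_.sub_apply, _root_.sum_apply]
    rfl
  rw [h2]
  have h3 : Filter.Tendsto (fun t : Finset κ => (∑ i ∈ t, ⟪e i, g⟫_ℂ • K (e i)) -
      ∑ i ∈ s, ⟪e i, g⟫_ℂ • K (e i)) Filter.atTop
      (nhds (K g - ∑ i ∈ s, ⟪e i, g⟫_ℂ • K (e i))) := by
    have := hexp e g
    unfold HasSum at this
    rw [SummationFilter.unconditional_filter] at this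
    exact this.sub_const _
  refine le_of_tendsto h3.norm ?_
  filter_upwards [Filter.eventually_ge_atTop s] with t hst
  rw [← Finset.sum_sdiff (show s ⊆ t from hst), add_sub_cancel_right]
  have h5 : ‖∑ i ∈ t \ s, ⟪e i, g⟫_ℂ • K (e i)‖ ^ 2 ≤ (Real.sqrt (A / m) * ‖g‖) ^ 2 := by
    rw [norm_sq_sum_orth _ _ horth, mul_pow, Real.sq_sqrt (by positivity)]
    calc ∑ i ∈ t \ s, ‖⟪e i, g⟫_ℂ‖ ^ 2 * ‖K (e i)‖ ^ 2
        ≤ ∑ i ∈ t \ s, ‖⟪e i, g⟫_ℂ‖ ^ 2 * (A / m) := by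
          refine Finset.sum_le_sum fun i hi => ?_
          have hi' : i ∉ s := (Finset.mem_sdiff.1 hi).2
          rw [hs', Set.Finite.mem_toFinset, hS, Set.mem_ofPred_eq, not_lt] at hi'
          gcongr
      _ = (A / m) * ∑ i ∈ t \ s, ‖⟪e i, g⟫_ℂ‖ ^ 2 := by rw [← Finset.sum_mul, mul_comm]
      _ ≤ (A / m) * ‖g‖ ^ 2 := by
          gcongr
          exact bess (fun i j hij => e.orthonormal.2 hij) (fun i => (e.orthonormal.1 i).le) _ g
  exact le_of_sq_le_sq h5 (by positivity)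

end

end Pool.Agent.H259.RH
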